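import Pool.Agent.H852R2.DM.Defs

namespace DM852
open RC14 RC852 Finset Filter Equiv

namespace CONN

variable {n r k : ℕ}

/-- the walk operator on functions on tuples -/
noncomputable def PP (y : Fin k → Alt n) (f : Tup r n → ℝ) (a : Tup r n) : ℝ :=
  (∑ i, (f (mv (y i : Perm (Fin n)) a) + f (mv (y i : Perm (Fin n))⁻¹ a))) / (2 * k)

/-- the lazy walk operator -/
noncomputable def QQ (y : Fin k → Alt n) (f : Tup r n → ℝ) (a : Tup r n) : ℝ :=
  (f a + PP y f a) / 2

lemma sum_mv (g : Perm (Fin n)) (F : Tup r n → ℝ) : ∑ a, F (mv g a) = ∑ a, F a :=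
  Equiv.sum_comp (mvE g) F

lemma sum_PP (hk : 1 ≤ k) (y : Fin k → Alt n) (f : Tup r n → ℝ) :
    ∑ a, PP y f a = ∑ a, f a := by
  have hk' : (0 : ℝ) < k := by exact_mod_cast hk
  simp only [PP]
  rw [← Finset.sum_div, Finset.sum_comm]
  simp only [Finset.sum_add_distrib, sum_mv]
  rw [Finset.sum_const, Finset.card_univ, Fintype.card_fin, nsmul_eq_mul]
  field_simp
  ring

lemma sum_QQ (hk : 1 ≤ k) (y : Fin k → Alt n) (f : Tup r n → ℝ) :
    ∑ a, QQ y f a = ∑ a, f a := by
  simp only [QQ]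
  rw [← Finset.sum_div, Finset.sum_add_distrib, sum_PP hk]
  ring

lemma norm_PP (hk : 1 ≤ k) (y : Fin k → Alt n) (f : Tup r n → ℝ) :
    ∑ a, PP y f a ^ 2 ≤ ∑ a, f a ^ 2 := by
  have hk' : (0 : ℝ) < k := by exact_mod_cast hk
  have h1 : ∀ a, PP y f a ^ 2 ≤
      (∑ i, (f (mv (y i : Perm (Fin n)) a) ^ 2 + f (mv (y i : Perm (Fin n))⁻¹ a) ^ 2)) /
        (2 * k) := by
    intro a
    simp only [PP]
    rw [div_pow, div_le_div_iff₀ (by positivity) (by positivity)]
    have h2 := sq_sum_le_card_mul_sum_sq (s := (Finset.univ : Finset (Fin k)))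
      (f := fun i => f (mv (y i : Perm (Fin n)) a) + f (mv (y i : Perm (Fin n))⁻¹ a))
    rw [Finset.card_univ, Fintype.card_fin] at h2
    have h3 : ∑ i, (f (mv (y i : Perm (Fin n)) a) + f (mv (y i : Perm (Fin n))⁻¹ a)) ^ 2 ≤
        2 * ∑ i, (f (mv (y i : Perm (Fin n)) a) ^ 2 + f (mv (y i : Perm (Fin n))⁻¹ a) ^ 2) := by
      rw [Finset.mul_sum]
      refine Finset.sum_le_sum fun i _ => ?_
      nlinarith [sq_nonneg (f (mv (y i : Perm (Fin n)) a) - f (mv (y i : Perm (Fin n))⁻¹ a))]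
    calc _ ≤ (k * (2 * ∑ i, (f (mv (y i : Perm (Fin n)) a) ^ 2 +
          f (mv (y i : Perm (Fin n))⁻¹ a) ^ 2))) * (2 * k) := by
          refine mul_le_mul_of_nonneg_right (h2.trans ?_) (by positivity)
          exact mul_le_mul_of_nonneg_left h3 hk'.le
      _ = _ := by ring
  refine (Finset.sum_le_sum fun a _ => h1 a).trans ?_
  rw [← Finset.sum_div, Finset.sum_comm]
  simp only [Finset.sum_add_distrib, sum_mv _ (fun b => f b ^ 2)]
  rw [Finset.sum_const, Finset.card_univ, Fintype.card_fin, nsmul_eq_mul]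
  refine le_of_eq ?_
  field_simp
  ring

lemma norm_QQ (hr : r + 2 ≤ n) (hk : 1 ≤ k) (c : ℝ) (y : Fin k → Alt n)
    (hy : Good1 n r c y) (f : Tup r n → ℝ) (hf : ∑ a, f a = 0) :
    ∑ a, QQ y f a ^ 2 ≤ Real.exp (-(c / (4 * k))) * ∑ a, f a ^ 2 := by
  have h1 : ∑ a, f a * PP y f a ≤ (1 - c / (2 * k)) * ∑ a, f a ^ 2 :=
    FRSCH n r k hr hk y c hy r le_rfl f hf
  have h2 := norm_PP hk y f
  have h3 : ∑ a, QQ y f a ^ 2 =
      (∑ a, f a ^ 2 + 2 * ∑ a, f a * PP y f a + ∑ a, PP y f a ^ 2) / 4 := by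
    rw [Finset.mul_sum, ← Finset.sum_add_distrib, ← Finset.sum_add_distrib, Finset.sum_div]
    refine Finset.sum_congr rfl fun a _ => ?_
    simp only [QQ]
    ring
  have h4 : 1 - c / (4 * k) ≤ Real.exp (-(c / (4 * k))) := by
    have := Real.add_one_le_exp (-(c / (4 * k)))
    linarith
  have h5 : 0 ≤ ∑ a, f a ^ 2 := Finset.sum_nonneg fun a _ => sq_nonneg _
  have hk' : (0 : ℝ) < k := by exact_mod_cast hk
  have h6 : (1 - c / (2 * k)) * ∑ a, f a ^ 2 = ∑ a, f a ^ 2 - 2 * (c / (4 * k) * ∑ a, f a ^ 2) := by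
    field_simp
    ring
  calc ∑ a, QQ y f a ^ 2 ≤ (1 - c / (4 * k)) * ∑ a, f a ^ 2 := by
        rw [h3]
        rw [h6] at h1
        have : (1 - c / (4 * k)) * ∑ a, f a ^ 2 = ∑ a, f a ^ 2 - c / (4 * k) * ∑ a, f a ^ 2 := by
          ring
        rw [this]
        linarith
    _ ≤ _ := mul_le_mul_of_nonneg_right h4 h5

lemma iter_sum (hk : 1 ≤ k) (y : Fin k → Alt n) (f : Tup r n → ℝ) (t : ℕ) :
    ∑ a, ((QQ y)^[t] f) a = ∑ a, f a := by
  induction t with
  | zero => simp
  | succ t ih => rw [Function.iterate_succ_apply', sum_QQ hk, ih]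

lemma iter_norm (hr : r + 2 ≤ n) (hk : 1 ≤ k) (c : ℝ) (y : Fin k → Alt n)
    (hy : Good1 n r c y) (f : Tup r n → ℝ) (hf : ∑ a, f a = 0) (t : ℕ) :
    ∑ a, ((QQ y)^[t] f) a ^ 2 ≤ Real.exp (-(c / (4 * k))) ^ t * ∑ a, f a ^ 2 := by
  induction t with
  | zero => simp
  | succ t ih =>
    rw [Function.iterate_succ_apply']
    refine (norm_QQ hr hk c y hy _ (by rw [iter_sum hk, hf])).trans ?_
    rw [pow_succ', mul_assoc]
    exact mul_le_mul_of_nonneg_left ih (Real.exp_pos _).le

lemma QQ_sub (hk : 1 ≤ k) (y : Fin k → Alt n) (f : Tup r n → ℝ) (s : ℝ) :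
    QQ y (fun a => f a - s) = fun a => QQ y f a - s := by
  have hk' : (0 : ℝ) < k := by exact_mod_cast hk
  funext a
  simp only [QQ, PP, Finset.sum_add_distrib, Finset.sum_sub_distrib, Finset.sum_const,
    Finset.card_univ, Fintype.card_fin, nsmul_eq_mul]
  field_simp
  ring

lemma iter_sub (hk : 1 ≤ k) (y : Fin k → Alt n) (f : Tup r n → ℝ) (s : ℝ) (t : ℕ) :
    (QQ y)^[t] (fun a => f a - s) = fun a => (QQ y)^[t] f a - s := by
  induction t with
  | zero => simp
  | succ t ih => rw [Function.iterate_succ_apply', Function.iterate_succ_apply', ih, QQ_sub hk]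

lemma Len_mono (y : Fin k → Alt n) {s t : ℕ} (h : s ≤ t) {g : Alt n} (hg : Len y s g) :
    Len y t g := by
  obtain ⟨l, h1, h2⟩ := hg
  exact ⟨l, h1.trans h, h2⟩

lemma Len_cons (y : Fin k → Alt n) {t : ℕ} {g : Alt n} (hg : Len y t g) (u : Fin k × Bool) :
    Len y (t + 1) (sl y u * g) := by
  obtain ⟨l, h1, h2⟩ := hg
  exact ⟨u :: l, by simpa using h1, by simp [h2]⟩

/-- the support of the iterated lazy walk -/
lemma iter_supp (y : Fin k → Alt n) (f : Tup r n → ℝ) (a : Tup r n)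
    (hf : ∀ b, b ≠ a → f b = 0) (t : ℕ) :
    ∀ b, (¬ ∃ g : Alt n, Len y t g ∧ mv (g : Perm (Fin n)) a = b) → ((QQ y)^[t] f) b = 0 := by
  induction t with
  | zero =>
    intro b hb
    refine hf b fun h => hb ⟨1, ⟨[], by simp, by simp⟩, ?_⟩
    simp [h]
  | succ t ih =>
    intro b hb
    rw [Function.iterate_succ_apply']
    have h0 : ((QQ y)^[t] f) b = 0 := by
      refine ih b ?_
      rintro ⟨g, hg1, hg2⟩
      exact hb ⟨g, Len_mono y (Nat.le_succ t) hg1, hg2⟩
    have h1 : ∀ i, ((QQ y)^[t] f) (mv (y i : Perm (Fin n)) b) = 0 := by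
      intro i
      refine ih _ ?_
      rintro ⟨g, hg1, hg2⟩
      refine hb ⟨sl y (i, false) * g, Len_cons y hg1 _, ?_⟩
      have : ((sl y (i, false) * g : Alt n) : Perm (Fin n)) = (y i : Perm (Fin n))⁻¹ * g := by
        simp [sl]
      rw [this, mv_mul, hg2, ← mv_mul]
      simp
    have h2 : ∀ i, ((QQ y)^[t] f) (mv (y i : Perm (Fin n))⁻¹ b) = 0 := by
      intro i
      refine ih _ ?_
      rintro ⟨g, hg1, hg2⟩
      refine hb ⟨sl y (i, true) * g, Len_cons y hg1 _, ?_⟩
      have : ((sl y (i, true) * g : Alt n) : Perm (Fin n)) = (y i : Perm (Fin n)) * g := by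
        simp [sl]
      rw [this, mv_mul, hg2, ← mv_mul]
      simp
    simp only [QQ, PP, h0, h1, h2]
    simp

end CONN

open CONN in
/-- from the gap on the levels `≤ r` to short words moving any `r`-tuple to any `r`-tuple -/
theorem CONN (n r k : ℕ) (hr : r + 2 ≤ n) (hk : 1 ≤ k) (c : ℝ) (hc : 0 < c) (y : Fin k → Alt n)
    (hy : Good1 n r c y) (L : ℕ) (hL : 8 * k / c * (r * Real.log n + 1) + 1 ≤ L)
    (a a' : Tup r n) : ∃ g : Alt n, Len y L g ∧ mv (g : Perm (Fin n)) a = a' := by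
  classical
  by_contra hcon
  have hk' : (0 : ℝ) < k := by exact_mod_cast hk
  have hn : (0 : ℝ) < n := by exact_mod_cast (by omega : 0 < n)
  have hN : (0 : ℝ) < (Fintype.card (Tup r n) : ℝ) := by
    exact_mod_cast Fintype.card_pos_iff.mpr ⟨a⟩
  set N : ℝ := (Fintype.card (Tup r n) : ℝ) with hNdef
  set e : Tup r n → ℝ := fun b => if b = a then 1 else 0 with he
  set f : Tup r n → ℝ := fun b => e b - 1 / N with hf
  have hsum : ∑ b, f b = 0 := by
    simp only [hf, he, Finset.sum_sub_distrib, Finset.sum_ite_eq', Finset.mem_univ, if_true,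
      Finset.sum_const, Finset.card_univ, nsmul_eq_mul]
    rw [← hNdef]
    field_simp
    ring
  have hsq : ∑ b, f b ^ 2 ≤ 1 := by
    have h1 : ∀ b, f b ^ 2 = e b - 2 / N * e b + 1 / N ^ 2 := by
      intro b
      simp only [hf, he]
      split_ifs
      · ring
      · ring
    simp only [h1, Finset.sum_add_distrib, Finset.sum_sub_distrib, ← Finset.mul_sum]
    simp only [he, Finset.sum_ite_eq', Finset.mem_univ, if_true,
      Finset.sum_const, Finset.card_univ, nsmul_eq_mul]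
    rw [← hNdef]
    have : N * (1 / N ^ 2) = 1 / N := by field_simp
    rw [this]
    have : 0 < 1 / N := by positivity
    have : 2 / N = 2 * (1 / N) := by ring
    linarith
  have h1 := iter_norm hr hk c y hy f hsum L
  have h2 : ((QQ y)^[L] f) a' = -(1 / N) := by
    rw [hf, iter_sub hk]
    simp only
    rw [iter_supp y e a (fun b hb => by simp [he, hb]) L a' hcon]
    ring
  have h3 : (1 / N) ^ 2 ≤ ∑ b, ((QQ y)^[L] f) b ^ 2 := by
    have := Finset.single_le_sum (f := fun b => ((QQ y)^[L] f) b ^ 2)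
      (fun b _ => sq_nonneg _) (Finset.mem_univ a')
    simp only [h2] at this
    linarith [this, neg_sq (1 / N)]
  have h4 : Real.exp (-(c / (4 * k))) ^ L * ∑ b, f b ^ 2 ≤ Real.exp (-(2 * (r * Real.log n + 1))) := by
    calc _ ≤ Real.exp (-(c / (4 * k))) ^ L * 1 :=
          mul_le_mul_of_nonneg_left hsq (by positivity)
      _ = Real.exp (-(c / (4 * k)) * L) := by
          rw [mul_one, ← Real.exp_nat_mul]
          ring_nf
      _ ≤ _ := by
          apply Real.exp_le_exp.mpr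
          have h5 : 8 * k / c * (r * Real.log n + 1) ≤ L := by linarith
          have h6 : c / (4 * k) * (8 * k / c * (r * Real.log n + 1)) ≤ c / (4 * k) * L :=
            mul_le_mul_of_nonneg_left h5 (by positivity)
          have h7 : c / (4 * k) * (8 * k / c * (r * Real.log n + 1)) =
              2 * (r * Real.log n + 1) := by
            field_simp
            ring
          rw [h7] at h6
          linarith
  have h8 : N ≤ (n : ℝ) ^ r := by
    have : Fintype.card (Tup r n) ≤ n ^ r := by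
      rw [Fintype.card_embedding_eq, Fintype.card_fin, Fintype.card_fin]
      exact Nat.descFactorial_le_pow n r
    calc N ≤ ((n ^ r : ℕ) : ℝ) := by rw [hNdef]; exact Nat.cast_le.mpr this
      _ = _ := by push_cast; rfl
  have h9 : Real.exp (-(2 * (r * Real.log n + 1))) < (1 / N) ^ 2 := by
    have h10 : Real.exp (r * Real.log n) = (n : ℝ) ^ r := by
      rw [mul_comm, Real.exp_mul, Real.exp_log hn, Real.rpow_natCast]
    have h11 : Real.exp (-(2 * (r * Real.log n + 1))) = (1 / (Real.exp (r * Real.log n + 1))) ^ 2 := by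
      rw [Real.exp_neg, one_div, inv_pow, ← Real.exp_nat_mul]
      norm_num
    rw [h11]
    have h12 : N < Real.exp (r * Real.log n + 1) := by
      have : Real.exp (r * Real.log n) < Real.exp (r * Real.log n + 1) :=
        Real.exp_lt_exp.mpr (by linarith)
      linarith
    have h13 : 1 / Real.exp (r * Real.log n + 1) < 1 / N := one_div_lt_one_div_of_lt hN h12
    exact pow_lt_pow_left₀ h13 (by positivity) (by norm_num)
  linarith

end DM852
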